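import Pool.Agent.UMG.StmtsB

/-!
# Row PAC of squad UMG
-/

set_option autoImplicit false

namespace Pool.Agent.UMG.B.H13

open Finset Pool.Agent.UMG Pool.Agent.UMG.B

theorem count_map_range (P : ℕ → ℕ × ℕ) (p : ℕ × ℕ) (j : ℕ) :
    ((List.range j).map P).count p = ∑ t ∈ range j, if P t = p then 1 else 0 := by
  induction j with
  | zero => simp
  | succ j ih =>
    rw [List.range_succ, List.map_append, List.count_append, ih, Finset.sum_range_succ]
    congr 1
    rw [List.map_singleton, List.count_singleton]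
    by_cases h : P j = p
    · rw [if_pos h, if_pos (by rw [h]; exact beq_self_eq_true p)]
    · rw [if_neg h, if_neg]
      intro h1
      exact h (by simpa using h1)

theorem card_count (P : ℕ → ℕ × ℕ) (p : ℕ × ℕ) (j : ℕ) :
    Nat.card {t : Fin j // P t = p} = ((List.range j).map P).count p := by
  classical
  rw [count_map_range, Finset.sum_range, Nat.card_eq_fintype_card, Fintype.card_subtype,
    Finset.card_filter]

theorem first (b b' : ℕ × ℕ × ℕ) (r : ℕ) (hj : bsz b' = bsz b) (v w : ℕ) :
    Nat.card {t : Fin (bsz b) // nu1 b t = v ∧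
      b'.1 + (((finRotate (bsz b)) ^ r) t : ℕ) % b'.2.1 = w} =
        (pairE (bsz b) r b b').count (v, w) := by
  unfold pairE
  rw [← card_count (fun t => (b.1 + t % b.2.1, b'.1 + (t + r) % b'.2.1)) (v, w) (bsz b)]
  refine Nat.card_congr (Equiv.subtypeEquivRight (fun t => ?_))
  have h1 : (((finRotate (bsz b)) ^ r) t : ℕ) % b'.2.1 = ((t : ℕ) + r) % b'.2.1 := by
    have h2 : ∀ x : ℕ, x % bsz b % b'.2.1 = x % b'.2.1 := by
      intro x
      rw [← hj]
      unfold bsz
      exact Nat.mod_mul_right_mod _ _ _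
    rw [finRotate_pow_val, h2]
  rw [h1]
  unfold nu1
  exact Prod.mk_inj.symm

theorem pac : PacStmt := by
  intro b b' r hj hr v w
  refine ⟨first b b' r hj v w, ?_⟩
  rw [← first b b' r hj w v]
  refine (Nat.card_congr (Equiv.subtypeEquiv ((finRotate (bsz b)) ^ r) (fun t => ?_))).symm
  have h1 : ((finRotate (bsz b)) ^ (bsz b - r)) (((finRotate (bsz b)) ^ r) t) = t := by
    rw [← Equiv.Perm.mul_apply, ← pow_add, Nat.sub_add_cancel hr.le]
    apply Fin.ext
    rw [finRotate_pow_val, Nat.add_mod_right, Nat.mod_eq_of_lt t.2]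
  rw [h1]
  exact and_comm

end Pool.Agent.UMG.B.H13
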