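import Pool.Agent.UMG.StmtsD

/-!
# Row OUI of squad UMG
-/

set_option autoImplicit false

namespace Pool.Agent.UMG.D.H13

open Finset

theorem split_sum (b : ℕ) (N : ℕ) (f : Fin (N + 1) → ℕ) :
    ∑ i, f i * b ^ (i : ℕ) = f 0 + (∑ i : Fin N, f i.succ * b ^ (i : ℕ)) * b := by
  rw [Fin.sum_univ_succ, Finset.sum_mul]
  simp only [Fin.val_zero, pow_zero, mul_one, Fin.val_succ, pow_succ, mul_assoc]

theorem dig_lt (b : ℕ) : ∀ (N : ℕ) (f : Fin N → ℕ), (∀ i, f i < b) →
    ∑ i, f i * b ^ (i : ℕ) < b ^ N := by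
  intro N
  induction N with
  | zero =>
    intro f _
    simp
  | succ N ih =>
    intro f hf
    rw [split_sum]
    have h1 := ih (fun i => f i.succ) (fun i => hf i.succ)
    have h2 := hf 0
    have h3 : (∑ i : Fin N, f i.succ * b ^ (i : ℕ) + 1) * b ≤ b ^ N * b :=
      Nat.mul_le_mul_right b h1
    rw [pow_succ]
    rw [add_mul, one_mul] at h3
    omega

theorem dig_inj (b : ℕ) : ∀ (N : ℕ) (f g : Fin N → ℕ), (∀ i, f i < b) → (∀ i, g i < b) →
    ∑ i, f i * b ^ (i : ℕ) = ∑ i, g i * b ^ (i : ℕ) → f = g := by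
  intro N
  induction N with
  | zero =>
    intro f g _ _ _
    funext i
    exact i.elim0
  | succ N ih =>
    intro f g hf hg h
    rw [split_sum, split_sum] at h
    have hb : 0 < b := lt_of_le_of_lt (Nat.zero_le _) (hf 0)
    have h0 : f 0 = g 0 := by
      have h1 := congrArg (fun x => x % b) h
      simp only [Nat.add_mul_mod_self_right] at h1
      rwa [Nat.mod_eq_of_lt (hf 0), Nat.mod_eq_of_lt (hg 0)] at h1
    have hs : ∑ i : Fin N, f i.succ * b ^ (i : ℕ) = ∑ i : Fin N, g i.succ * b ^ (i : ℕ) := by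
      rw [h0] at h
      exact Nat.eq_of_mul_eq_mul_right hb (Nat.add_left_cancel h)
    have h2 := ih (fun i => f i.succ) (fun i => g i.succ) (fun i => hf i.succ)
      (fun i => hg i.succ) hs
    funext i
    refine Fin.cases h0 (fun j => ?_) i
    exact congrFun h2 j

theorem oui : OuiStmt := by
  intro M n A B hA hB h
  unfold out at h
  have h1 : ∑ v : Fin n, (∑ w : Fin n, A v w * (M + 1) ^ (w : ℕ)) * ((M + 1) ^ n) ^ (v : ℕ) =
      ∑ v : Fin n, (∑ w : Fin n, B v w * (M + 1) ^ (w : ℕ)) * ((M + 1) ^ n) ^ (v : ℕ) := by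
    have e : ∀ C : Fin n → Fin n → ℕ,
        ∑ v : Fin n, (∑ w : Fin n, C v w * (M + 1) ^ (w : ℕ)) * ((M + 1) ^ n) ^ (v : ℕ) =
        ∑ v : Fin n, ∑ w : Fin n, C v w * (M + 1) ^ ((v : ℕ) * n + (w : ℕ)) := by
      intro C
      refine Finset.sum_congr rfl (fun v _ => ?_)
      rw [Finset.sum_mul]
      refine Finset.sum_congr rfl (fun w _ => ?_)
      rw [← pow_mul, mul_assoc, ← pow_add, Nat.mul_comm n (v : ℕ),
        Nat.add_comm (w : ℕ) ((v : ℕ) * n)]
    rw [e A, e B]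
    exact Nat.add_left_cancel h
  have h2 := dig_inj ((M + 1) ^ n) n (fun v => ∑ w : Fin n, A v w * (M + 1) ^ (w : ℕ))
    (fun v => ∑ w : Fin n, B v w * (M + 1) ^ (w : ℕ))
    (fun v => dig_lt (M + 1) n (A v) (fun w => Nat.lt_succ_of_le (hA v w)))
    (fun v => dig_lt (M + 1) n (B v) (fun w => Nat.lt_succ_of_le (hB v w))) h1
  funext v
  exact dig_inj (M + 1) n (A v) (B v) (fun w => Nat.lt_succ_of_le (hA v w))
    (fun w => Nat.lt_succ_of_le (hB v w)) (congrFun h2 v)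

end Pool.Agent.UMG.D.H13
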